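import Pool.Agent.MP_b9449f_co.H8.Metric
import Pool.Agent.MP_b9449f_co.H8.Rigid
import Pool.Agent.MP_b9449f_co.H8.Flex

set_option autoImplicit false

open MeasureTheory Pool.Agent.MP_b9449f_co.H8

/-- Every `k`-triangulation of the convex `n`-gon is minimally generically rigid in dimension
`2k`: almost every placement is rigid, and after deleting any one edge almost every placement is
flexible. -/
theorem Pool.Agent.Results.MP_b9449f_co.MinRigid.result (k n : ℕ) (hn : 2 * k + 1 ≤ n)
    (T : SimpleGraph (Fin n)) (hT : IsMultiTriangulation k T) :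
    (∀ᵐ p : Fin n → EuclideanSpace ℝ (Fin (2 * k)), IsRigid T p) ∧
      ∀ e ∈ T.edgeSet, ∀ᵐ p : Fin n → EuclideanSpace ℝ (Fin (2 * k)),
        ¬ IsRigid (T.deleteEdges {e}) p := by
  obtain ⟨dv, dm, h1, h2, h3⟩ := exists_metric hT
  obtain ⟨c, hc⟩ := exists_dom T dv dm h1 h2 h3
  obtain ⟨c', hc', hsum⟩ := exists_dom_sum T c hc
  obtain ⟨p₀, hp₀⟩ := exists_stressFree (d := 2 * k) T (by rw [Fintype.card_fin]; omega)
    ⟨0, by omega⟩ ⟨0, by omega⟩ c' hc' hsum
  have hae := ae_stressFree T hp₀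
  refine ⟨hae.mono fun p hp => isRigid_of ⟨0, by omega⟩ T (card_nonedges hT) hp,
    fun e he => hae.mono fun p hp => not_isRigid_of T hp e he⟩
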